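import Pool.Agent.Results.MP_4ffbf9_nt.RandomSmallSpread
import Pool.Agent.V35.WB

/-!
# No relations between products of small spread for ALL tuples of bases near almost every point

The starting theorem `RandomSmallSpread` says that few tuples `b` of bases in a box admit a relation `∑ c_i X_i = 0` with
products `X_i` (of any degrees) of integers of `[b_i, b_i + (log N) ^ δ]` and small coefficients `c_i`; it says nothing about
given bases. Here: for all real `α` outside a set of Hausdorff dimension at most `(M - 1/4 + ε + τ) / (1 - θ)`, a null set if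
`M θ + ε + τ < 1 / 4`, ALL tuples of bases at distance at most `v_n ^ θ` from `v_n α`, `n` large, admit no such relation.
-/

set_option autoImplicit false

open MeasureTheory

namespace Pool.Agent.Results.MP_4ffbf9_nt.BasesInWindows

open RandomSmallSpread Pool.Agent.V35.WM Pool.Agent.V35.WB

/-- the largest entry -/
def mx {M : ℕ} (b : Fin M → ℕ) : ℕ := Finset.univ.sup b

/-- The tuples `b` of positive integers, with largest entry `m`, for which some relation `∑ c_i X_i = 0` holds, where the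
`c_i` are nonzero integers of absolute value at most `exp ((log m) ^ (1 - ε))` with nonzero sum and `X_i` is a product, of
any degree, of integers of `[b_i, b_i + (log m) ^ δ]`. -/
def Bad (M : ℕ) (ε δ : ℝ) : Set (Fin M → ℕ) :=
  {b | (∀ i, 0 < b i) ∧ b ∈ BadBases M (Real.exp (Real.log (mx b) ^ (1 - ε))) (Real.log (mx b) ^ δ)}

lemma mono {M : ℕ} {H H' σ σ' : ℝ} (hH : H ≤ H') (hσ : σ ≤ σ') : BadBases M H σ ⊆ BadBases M H' σ' := by
  rintro b ⟨c, X, h1, h2, h3, h4⟩
  refine ⟨c, X, fun i => ⟨(h1 i).1, (h1 i).2.trans hH⟩, h2, fun i => ?_, h4⟩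
  obtain ⟨s, h5, h6⟩ := h3 i
  exact ⟨s, h5.trans hσ, h6⟩

/-- **Theorem.** Let `M ≥ 1` and `0 < ε ≤ 1`. There is `δ > 0` such that for all sequences `v ≥ 1` of exponent of
convergence at most `τ ≥ 0` and all `θ < 1` there is a set `E ⊆ ℝ ^ M` of Hausdorff dimension at most
`(M - 1/4 + ε + τ) / (1 - θ)`, and of Lebesgue measure zero if `M θ + ε + τ < 1 / 4`, such that for all `α` outside `E` and
all large `n` NO tuple `b` of positive integers with `‖b - v_n α‖ ≤ (v_n) ^ θ` (maximum norm) is in `Bad M ε δ`. For `M = 3`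
none of these `b` admits a solution of `A X + B Y = C Z` in products of base `b_i` and spread at most `(log max b) ^ δ`,
with positive integers `A, B, C ≤ exp ((log max b) ^ (1 - ε))`, `A + B ≠ C`. The exponent of convergence of `a ^ n`, `a > 1`,
is at most `0`. -/
theorem result (M : ℕ) (ε : ℝ) (hM : 1 ≤ M) (hε : 0 < ε) (hε1 : ε ≤ 1) : ∃ δ : ℝ, 0 < δ ∧
    (∀ (v : ℕ → ℝ) (τ θ : ℝ), (∀ n, 1 ≤ v n) → 0 ≤ τ → ExpLe v τ → θ < 1 →
      ∃ E : Set (Fin M → ℝ), dimH E ≤ ENNReal.ofReal (((M : ℝ) - 1 / 4 + ε + τ) / (1 - θ)) ∧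
        (M * θ + ε + τ < 1 / 4 → volume E = 0) ∧
        ∀ α : Fin M → ℝ, α ∉ E → ∃ n₀ : ℕ, ∀ n : ℕ, n₀ ≤ n → ∀ b : Fin M → ℕ, (∀ i, 0 < b i) →
          ‖(fun i => (b i : ℝ)) - v n • α‖ ≤ (v n) ^ θ → b ∉ Bad M ε δ) ∧
    (∀ b : Fin 3 → ℕ, (∀ i, 0 < b i) → b ∉ Bad 3 ε δ →
      b ∉ BadTriples (Real.exp (Real.log (mx b) ^ (1 - ε))) (Real.log (mx b) ^ δ)) ∧
    (∀ a : ℝ, 1 < a → ExpLe (fun n : ℕ => a ^ n) 0) := by
  classical
  obtain ⟨δ, hδ, N₀, h⟩ := RandomSmallSpread.result.1 M ε hε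
  refine ⟨δ, hδ, ?_, fun b hb hB hT => hB ⟨hb, triples_subset _ _ hT⟩, fun a ha => expLe_geom a ha⟩
  intro v τ θ hv hτ hE hθ
  have hM1 : (1 : ℝ) ≤ M := by exact_mod_cast hM
  have hM0 : (0 : ℝ) < M := by linarith
  have hs : 0 ≤ (M : ℝ) - 1 / 4 + ε := by linarith
  set P : (Fin M → ℤ) → Prop := fun c => (∀ i, 0 < c i) ∧ (fun i => (c i).toNat) ∈ Bad M ε δ with hP
  have hcount : ∀ ε' : ℝ, 0 < ε' → ∃ C : ℝ, ∀ H : ℕ, 1 ≤ H →
      ({c : Fin M → ℤ | (∀ i, |c i| ≤ (H : ℤ)) ∧ P c}.ncard : ℝ) ≤ C * (H : ℝ) ^ (((M : ℝ) - 1 / 4 + ε) + ε') := by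
    intro ε' hε'
    refine ⟨((N₀ : ℝ) + 1) ^ M + 1, fun H hH => ?_⟩
    have hH0 : (0 : ℝ) < H := by exact_mod_cast hH
    have hH1 : (1 : ℝ) ≤ H := by exact_mod_cast hH
    have hpow1 : (1 : ℝ) ≤ (H : ℝ) ^ (((M : ℝ) - 1 / 4 + ε) + ε') := Real.one_le_rpow hH1 (by linarith)
    have hinj : Set.InjOn (fun (c : Fin M → ℤ) (i : Fin M) => (c i).toNat)
        {c : Fin M → ℤ | (∀ i, |c i| ≤ (H : ℤ)) ∧ P c} := by
      intro c hc c' hc' he
      funext i
      have h1 : (c i).toNat = (c' i).toNat := congrFun he i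
      have h2 := hc.2.1 i
      have h3 := hc'.2.1 i
      omega
    have hbox : ∀ c ∈ {c : Fin M → ℤ | (∀ i, |c i| ≤ (H : ℤ)) ∧ P c}, ∀ i, 0 < (c i).toNat ∧ (c i).toNat ≤ H := by
      intro c hc i
      have h2 := hc.2.1 i
      have h3 := hc.1 i
      rw [abs_of_pos h2] at h3
      omega
    rcases le_or_gt N₀ H with hN | hN
    · have hcard := h H hN (fun _ => 0) (fun _ => H) (fun _ => le_rfl)
      have hmaps : Set.MapsTo (fun (c : Fin M → ℤ) (i : Fin M) => (c i).toNat)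
          {c : Fin M → ℤ | (∀ i, |c i| ≤ (H : ℤ)) ∧ P c}
          ({b : Fin M → ℕ | ∀ i, 0 < b i ∧ b i ≤ 0 + H} ∩
            BadBases M (Real.exp (Real.log H ^ (1 - ε))) (Real.log H ^ δ)) := by
        intro c hc
        have hb := hbox c hc
        refine ⟨fun i => by rw [zero_add]; exact hb i, ?_⟩
        have hmx : mx (fun i => (c i).toNat) ≤ H := Finset.sup_le fun i _ => (hb i).2
        have hmx1 : 1 ≤ mx (fun i => (c i).toNat) := (hb ⟨0, by omega⟩).1.trans_le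
          (Finset.le_sup (f := fun i => (c i).toNat) (Finset.mem_univ (⟨0, by omega⟩ : Fin M)))
        have hl0 : 0 ≤ Real.log (mx (fun i => (c i).toNat)) := Real.log_nonneg (by exact_mod_cast hmx1)
        have hl1 : Real.log (mx (fun i => (c i).toNat)) ≤ Real.log H :=
          Real.log_le_log (by exact_mod_cast hmx1) (by exact_mod_cast hmx)
        exact mono (Real.exp_le_exp.2 (Real.rpow_le_rpow hl0 hl1 (by linarith)))
          (Real.rpow_le_rpow hl0 hl1 hδ.le) hc.2.2.2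
      have hfin : ({b : Fin M → ℕ | ∀ i, 0 < b i ∧ b i ≤ 0 + H} ∩
            BadBases M (Real.exp (Real.log H ^ (1 - ε))) (Real.log H ^ δ)).Finite := by
        apply Set.Finite.subset (Finset.finite_toSet (Fintype.piFinset (fun _ : Fin M => Finset.Ioc 0 H)))
        rintro b ⟨hb, -⟩
        rw [Finset.mem_coe, Fintype.mem_piFinset]
        intro i
        rw [Finset.mem_Ioc]
        have := hb i
        omega
      have h4 := Set.ncard_le_ncard_of_injOn _ hmaps hinj hfin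
      calc ({c : Fin M → ℤ | (∀ i, |c i| ≤ (H : ℤ)) ∧ P c}.ncard : ℝ)
          ≤ ((({b : Fin M → ℕ | ∀ i, 0 < b i ∧ b i ≤ 0 + H} ∩
            BadBases M (Real.exp (Real.log H ^ (1 - ε))) (Real.log H ^ δ)).ncard : ℕ) : ℝ) := by exact_mod_cast h4
        _ ≤ (H : ℝ) ^ (-(1 / 4) + ε) * ∏ _i : Fin M, (H : ℝ) := hcard
        _ = 1 * (H : ℝ) ^ ((M : ℝ) - 1 / 4 + ε) := by
            rw [Finset.prod_const, Finset.card_univ, Fintype.card_fin, ← Real.rpow_natCast, ← Real.rpow_add hH0, one_mul]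
            congr 1
            ring
        _ ≤ (((N₀ : ℝ) + 1) ^ M + 1) * (H : ℝ) ^ (((M : ℝ) - 1 / 4 + ε) + ε') := by
            apply mul_le_mul _ (Real.rpow_le_rpow_of_exponent_le hH1 (by linarith)) (by positivity) (by positivity)
            have : (0 : ℝ) ≤ ((N₀ : ℝ) + 1) ^ M := by positivity
            linarith
    · have hmaps : Set.MapsTo (fun (c : Fin M → ℤ) (i : Fin M) => (c i).toNat)
          {c : Fin M → ℤ | (∀ i, |c i| ≤ (H : ℤ)) ∧ P c}
          (Fintype.piFinset (fun _ : Fin M => Finset.Icc 1 H) : Finset (Fin M → ℕ)) := by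
        intro c hc
        rw [Finset.mem_coe, Fintype.mem_piFinset]
        intro i
        exact Finset.mem_Icc.2 ⟨(hbox c hc i).1, (hbox c hc i).2⟩
      have h4 := Set.ncard_le_ncard_of_injOn _ hmaps hinj (Finset.finite_toSet _)
      rw [Set.ncard_coe_finset, Fintype.card_piFinset, Finset.prod_const, Finset.card_univ, Fintype.card_fin,
        Nat.card_Icc, Nat.add_sub_cancel] at h4
      have h5 : ((H ^ M : ℕ) : ℝ) ≤ ((N₀ : ℝ) + 1) ^ M := by
        push_cast
        exact pow_le_pow_left₀ hH0.le (by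
          have : (H : ℝ) ≤ N₀ := by exact_mod_cast hN.le
          linarith) M
      calc ({c : Fin M → ℤ | (∀ i, |c i| ≤ (H : ℤ)) ∧ P c}.ncard : ℝ) ≤ ((H ^ M : ℕ) : ℝ) := by exact_mod_cast h4
        _ ≤ (((N₀ : ℝ) + 1) ^ M + 1) * 1 := by linarith
        _ ≤ (((N₀ : ℝ) + 1) ^ M + 1) * (H : ℝ) ^ (((M : ℝ) - 1 / 4 + ε) + ε') :=
            mul_le_mul_of_nonneg_left hpow1 (by positivity)
  have hne : Nonempty (Fin M) := ⟨⟨0, by omega⟩⟩
  obtain ⟨E, hE1, hE2, hE3⟩ := windows_of_box hs hcount v τ θ hv hτ hE hθ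
  refine ⟨E, hE1, fun hlt => hE2 ?_, fun α hα => ?_⟩
  · rw [Fintype.card_fin, lt_sub_iff_add_lt, ← lt_sub_iff_add_lt', div_lt_iff₀ hM0]
    linarith
  · obtain ⟨n₀, hn₀⟩ := hE3 α hα
    refine ⟨n₀, fun n hn b hb hd hbad => ?_⟩
    refine hn₀ n hn (fun i => (b i : ℤ)) ?_ ⟨fun i => Int.natCast_pos.2 (hb i), ?_⟩
    · have h1 : (vec (fun i => (b i : ℤ)) : Fin M → ℝ) = fun i => (b i : ℝ) := by
        funext i
        rw [vec]
        push_cast
        rfl
      rw [h1]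
      exact hd
    · simpa using hbad

end Pool.Agent.Results.MP_4ffbf9_nt.BasesInWindows
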