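import Pool.Agent.Results.MP_4ffbf9_nt.FactorWindows
import Pool.Agent.V11001.KM.Near
import Pool.Agent.V11001.KM.Zero
import Pool.Agent.V11001.KM.NatSet

/-!
# Solutions of `A X + B Y = C Z` in products of small spread with largest factor near the powers of a real number

Let `ν n / log n → ∞`, for example `ν n = n` or `ν n = n !`. There is a set `E` of real numbers of Hausdorff dimension zero
such that for each `x > 1` outside `E`, all `θ < 1` and all `S`, `Q`, `P` there are `R` and `δ > 0` such that there are only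
finitely many `M` with `|M - x ^ (ν n)| ≤ x ^ (θ ν n)` for some `n` which are the largest factor of a solution of
`A X + B Y = C Z` with `gcd (X, Y) ≤ Q rad (gcd (X, Y))`, coefficients `A, B, C ≤ exp (M ^ δ)` without prime factors larger
than `P` and `X`, `Y`, `Z` products of spread at most `S` of degrees between `R` and `M ^ δ`.
-/

set_option autoImplicit false

open Finset Filter Topology
open scoped ENNReal

namespace Pool.Agent.Results.MP_4ffbf9_nt.FactorsNearPowers

open Pool.Agent.V11001.KM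
open FactorWindows (Solved)

/-- **Theorem.** Let `ν n / log n → ∞` and let `U` be a countable set of real numbers. There is a set `E` of real numbers
of Hausdorff dimension zero such that for each `x > 1` outside `E`, each `θ < 1` and all `S`, `Q`, `P` there are `R` and
`δ > 0` such that for each positive `β` in `U` only finitely many `M` with `|M - β x ^ (ν n)| ≤ x ^ (θ ν n)` for some `n`
are the largest factor of a solution of `A X + B Y = C Z` with `gcd (X, Y) ≤ Q rad (gcd (X, Y))`, coefficients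
`A, B, C ≤ exp (M ^ δ)` without prime factors larger than `P` and `X`, `Y`, `Z` products of spread at most `S` of degrees
between `R` and `M ^ δ`. -/
theorem result : ∀ ν : ℕ → ℝ, Fast ν → ∀ U : Set ℝ, U.Countable →
    ∃ E : Set ℝ, dimH E = 0 ∧ ∀ x : ℝ, 1 < x → x ∉ E → ∀ θ : ℝ, θ < 1 → ∀ S Q P : ℕ,
      ∃ (R : ℕ) (δ : ℝ), 0 < δ ∧ ∀ β ∈ U, 0 < β → {M : ℕ | Near ν θ β x M ∧ Solved S Q P R δ M}.Finite := by
  classical
  intro ν hν U hU
  have hc : ∀ (q : ℕ × ℕ × ℕ) (j : ℕ), ∃ (R : ℕ) (δ : ℝ), 0 < δ ∧ ∃ C : ℝ, 0 ≤ C ∧ ∀ X : ℕ, 1 ≤ X →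
      (((Ioc 0 X).filter (fun M => Solved q.1 q.2.1 q.2.2 R δ M)).card : ℝ) ≤ C * (X : ℝ) ^ (1 / (2 * ((j : ℝ) + 1))) :=
    fun q j => FactorWindows.count q.1 q.2.1 q.2.2 (1 / (2 * ((j : ℝ) + 1))) (by positivity)
  choose R δ hδ C hC hcount using hc
  obtain ⟨E, h1, h2⟩ := zero_family (Q := ℕ × ℕ × ℕ) (J := Unit) (fun M : ℕ => (M : ℝ)) hν U hU
    (fun q j _ => {M : ℕ | Solved q.1 q.2.1 q.2.2 (R q j) (δ q j) M}) (fun q j _ => by
      obtain ⟨K, hK⟩ := count_of_nat {M : ℕ | Solved q.1 q.2.1 q.2.2 (R q j) (δ q j) M}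
        (s := 1 / (2 * ((j : ℝ) + 1))) (ε := 1 / (2 * ((j : ℝ) + 1))) (by positivity) (by positivity)
        ⟨C q j, fun X hX => (hcount q j X hX).trans (mul_le_mul_of_nonneg_left
          (Real.rpow_le_rpow_of_exponent_le (by exact_mod_cast hX) (by
            have : (0 : ℝ) < 1 / (2 * ((j : ℝ) + 1)) := by positivity
            linarith)) (hC q j))⟩
      refine ⟨K, fun X hX => ?_⟩
      have he : 1 / (2 * ((j : ℝ) + 1)) + 1 / (2 * ((j : ℝ) + 1)) = 1 / ((j : ℝ) + 1) := by
        field_simp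
        norm_num
      rw [← he]
      exact hK X hX)
  refine ⟨E, h1, fun x hx hxE θ hθ S Q P => ?_⟩
  obtain ⟨j, hj⟩ := h2 x hx hxE θ hθ (S, Q, P)
  refine ⟨R (S, Q, P) j, δ (S, Q, P) j, hδ _ _, fun β hβ hβ0 => (hj β hβ hβ0 ()).subset ?_⟩
  rintro M ⟨h3, h4⟩
  exact ⟨h4, h3⟩

end Pool.Agent.Results.MP_4ffbf9_nt.FactorsNearPowers
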