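import Pool.Agent.Results.MP_4ffbf9_nt.RandomSmallSpread
import Pool.Agent.H223.PS.Engine

/-!
# No relations between products of small spread for all tuples of bases in prescribed residue classes

The starting theorem `RandomSmallSpread` says that few tuples `b` of bases in a box admit a relation `∑ c_i X_i = 0` with
products `X_i` (of any degrees) of integers of `[b_i, b_i + (log N) ^ δ]` and small coefficients `c_i`; it says nothing about
given tuples. Here: for every prime `p` and all `p`-adic `α` outside a set of Hausdorff dimension at most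
`(M - 1/4 + ε) / σ`, ALL tuples of bases `b ≤ T` congruent to `α` modulo a power of `p` that is at least `T ^ σ` admit no
such relation, `T` large. The dimension is smaller than `M` as soon as `σ > 1 - (1/4 - ε) / M`.
-/

set_option autoImplicit false

open MeasureTheory

namespace Pool.Agent.Results.MP_4ffbf9_nt.PadicBases

open RandomSmallSpread

/-- the largest entry -/
def mx {M : ℕ} (b : Fin M → ℕ) : ℕ := Finset.univ.sup b

/-- The tuples `b` of positive integers, with largest entry `m`, for which some relation `∑ c_i X_i = 0` holds, where the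
`c_i` are nonzero integers of absolute value at most `exp ((log m) ^ (1 - ε))` with nonzero sum and `X_i` is a product, of
any degree, of integers of `[b_i, b_i + (log m) ^ δ]`. -/
def Bad (M : ℕ) (ε δ : ℝ) : Set (Fin M → ℕ) :=
  {b | (∀ i, 0 < b i) ∧ b ∈ BadBases M (Real.exp (Real.log (mx b) ^ (1 - ε))) (Real.log (mx b) ^ δ)}

lemma mono {M : ℕ} {H H' σ σ' : ℝ} (hH : H ≤ H') (hσ : σ ≤ σ') : BadBases M H σ ⊆ BadBases M H' σ' := by
  rintro b ⟨c, X, h1, h2, h3, h4⟩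
  refine ⟨c, X, fun i => ⟨(h1 i).1, (h1 i).2.trans hH⟩, h2, fun i => ?_, h4⟩
  obtain ⟨s, h5, h6⟩ := h3 i
  exact ⟨s, h5.trans hσ, h6⟩

theorem count {M : ℕ} {ε δ : ℝ} (hM : 1 ≤ M) (hε : 0 < ε) (hε1 : ε ≤ 1) (hδ : 0 < δ) {N₀ : ℕ}
    (h : ∀ N : ℕ, N₀ ≤ N → ∀ a w : Fin M → ℕ, (∀ i, N ≤ w i) →
      ((({b : Fin M → ℕ | ∀ i, a i < b i ∧ b i ≤ a i + w i} ∩
        BadBases M (Real.exp (Real.log N ^ (1 - ε))) (Real.log N ^ δ)).ncard : ℕ) : ℝ) ≤
        (N : ℝ) ^ (-(1 / 4) + ε) * ∏ i, (w i : ℝ)) {ε' : ℝ} (hε' : 0 < ε') :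
    ∃ C : ℝ, ∀ X : ℝ, 1 ≤ X → {t : Fin M → ℕ | (∀ i, (t i : ℝ) ≤ X) ∧ t ∈ Bad M ε δ}.Finite ∧
      ({t : Fin M → ℕ | (∀ i, (t i : ℝ) ≤ X) ∧ t ∈ Bad M ε δ}.ncard : ℝ) ≤
        C * X ^ (((M : ℝ) - 1 / 4 + ε) + ε') := by
  classical
  have hM1 : (1 : ℝ) ≤ M := by exact_mod_cast hM
  refine ⟨((N₀ : ℝ) + 1) ^ M + 1, fun X hX => ?_⟩
  have hX0 : (0 : ℝ) < X := by linarith
  set H : ℕ := ⌊X⌋₊ with hH
  have hH1 : 1 ≤ H := Nat.le_floor (by exact_mod_cast hX)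
  have hHX : (H : ℝ) ≤ X := Nat.floor_le hX0.le
  have hH1' : (1 : ℝ) ≤ H := by exact_mod_cast hH1
  have hH0 : (0 : ℝ) < H := by linarith
  have hpow1 : (1 : ℝ) ≤ X ^ (((M : ℝ) - 1 / 4 + ε) + ε') := Real.one_le_rpow hX (by linarith)
  set B : Finset (Fin M → ℕ) := Fintype.piFinset (fun _ : Fin M => Finset.Ioc 0 H) with hB
  have hsubB : {t : Fin M → ℕ | (∀ i, (t i : ℝ) ≤ X) ∧ t ∈ Bad M ε δ} ⊆ (B : Set (Fin M → ℕ)) := by
    rintro t ⟨h1, h2⟩
    rw [Finset.mem_coe, hB, Fintype.mem_piFinset]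
    intro i
    rw [Finset.mem_Ioc]
    exact ⟨h2.1 i, Nat.le_floor (h1 i)⟩
  have hfin := (Finset.finite_toSet B).subset hsubB
  refine ⟨hfin, ?_⟩
  rcases le_or_gt N₀ H with hN | hN
  · have hcard := h H hN (fun _ => 0) (fun _ => H) (fun _ => le_rfl)
    have hsub : {t : Fin M → ℕ | (∀ i, (t i : ℝ) ≤ X) ∧ t ∈ Bad M ε δ} ⊆
        {b : Fin M → ℕ | ∀ i, 0 < b i ∧ b i ≤ 0 + H} ∩
          BadBases M (Real.exp (Real.log H ^ (1 - ε))) (Real.log H ^ δ) := by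
      rintro t ⟨h1, h2⟩
      have hb : ∀ i, t i ≤ H := fun i => Nat.le_floor (h1 i)
      refine ⟨fun i => ⟨h2.1 i, by rw [zero_add]; exact hb i⟩, ?_⟩
      have hmx : mx t ≤ H := Finset.sup_le fun i _ => hb i
      have hmx1 : 1 ≤ mx t := (h2.1 ⟨0, by omega⟩).trans_le
        (Finset.le_sup (f := t) (Finset.mem_univ (⟨0, by omega⟩ : Fin M)))
      have hl0 : 0 ≤ Real.log (mx t) := Real.log_nonneg (by exact_mod_cast hmx1)
      have hl1 : Real.log (mx t) ≤ Real.log H :=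
        Real.log_le_log (by exact_mod_cast hmx1) (by exact_mod_cast hmx)
      exact mono (Real.exp_le_exp.2 (Real.rpow_le_rpow hl0 hl1 (by linarith)))
        (Real.rpow_le_rpow hl0 hl1 hδ.le) h2.2
    have hfin2 : ({b : Fin M → ℕ | ∀ i, 0 < b i ∧ b i ≤ 0 + H} ∩
          BadBases M (Real.exp (Real.log H ^ (1 - ε))) (Real.log H ^ δ)).Finite := by
      apply Set.Finite.subset (Finset.finite_toSet B)
      rintro b ⟨hb, -⟩
      rw [Finset.mem_coe, hB, Fintype.mem_piFinset]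
      intro i
      rw [Finset.mem_Ioc]
      have := hb i
      omega
    have h1 : ({t : Fin M → ℕ | (∀ i, (t i : ℝ) ≤ X) ∧ t ∈ Bad M ε δ}.ncard : ℝ) ≤
        (H : ℝ) ^ (-(1 / 4) + ε) * ∏ _i : Fin M, (H : ℝ) :=
      le_trans (by exact_mod_cast Set.ncard_le_ncard hsub hfin2) hcard
    have h2 : (H : ℝ) ^ (-(1 / 4) + ε) * ∏ _i : Fin M, (H : ℝ) = (H : ℝ) ^ ((M : ℝ) - 1 / 4 + ε) := by
      rw [Finset.prod_const, Finset.card_univ, Fintype.card_fin, ← Real.rpow_natCast, ← Real.rpow_add hH0]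
      congr 1
      ring
    have h3 : (H : ℝ) ^ ((M : ℝ) - 1 / 4 + ε) ≤ X ^ (((M : ℝ) - 1 / 4 + ε) + ε') :=
      (Real.rpow_le_rpow hH0.le hHX (by linarith)).trans
        (Real.rpow_le_rpow_of_exponent_le hX (by linarith))
    have h4 : (1 : ℝ) ≤ ((N₀ : ℝ) + 1) ^ M + 1 := by
      have : (0 : ℝ) ≤ ((N₀ : ℝ) + 1) ^ M := by positivity
      linarith
    nlinarith
  · have h1 : ({t : Fin M → ℕ | (∀ i, (t i : ℝ) ≤ X) ∧ t ∈ Bad M ε δ}.ncard : ℝ) ≤ (H : ℝ) ^ M := by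
      have h2 := Set.ncard_le_ncard hsubB (Finset.finite_toSet B)
      rw [Set.ncard_coe_finset, hB, Fintype.card_piFinset_const, Nat.card_Ioc, Nat.sub_zero] at h2
      exact_mod_cast h2
    have h3 : (H : ℝ) ^ M ≤ ((N₀ : ℝ) + 1) ^ M := by
      apply pow_le_pow_left₀ hH0.le
      have : (H : ℝ) < N₀ := by exact_mod_cast hN
      linarith
    have h5 : (0 : ℝ) ≤ ((N₀ : ℝ) + 1) ^ M := by positivity
    nlinarith

/-- **Theorem.** Let `M ≥ 1` and `0 < ε ≤ 1`. There is `δ > 0` such that for every prime `p` and every `σ > 0` there is a set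
`E ⊆ (ℤ_p) ^ M` of Hausdorff dimension at most `(M - 1/4 + ε) / σ` such that for all `α` outside `E` and all large `T` NO
tuple `b` of positive integers `b_i ≤ T` with `|b_i - α_i|_p ≤ T ^ (-σ)` for all `i` is in `Bad M ε δ`. For `M = 3` none of
these `b` admits a solution of `A X + B Y = C Z` in products of base `b_i` and spread at most `(log max b) ^ δ`, with
positive integers `A, B, C ≤ exp ((log max b) ^ (1 - ε))`, `A + B ≠ C`. -/
theorem result (M : ℕ) (ε : ℝ) (hM : 1 ≤ M) (hε : 0 < ε) (hε1 : ε ≤ 1) : ∃ δ : ℝ, 0 < δ ∧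
    (∀ (p : ℕ) [Fact p.Prime] (σ : ℝ), 0 < σ →
      ∃ E : Set (Fin M → ℤ_[p]), dimH E ≤ ENNReal.ofReal (((M : ℝ) - 1 / 4 + ε) / σ) ∧
        ∀ α : Fin M → ℤ_[p], α ∉ E → ∃ T₀ : ℝ, ∀ T : ℝ, T₀ ≤ T → ∀ b : Fin M → ℕ,
          (∀ i, (b i : ℝ) ≤ T ∧ ‖(b i : ℤ_[p]) - α i‖ ≤ T ^ (-σ)) → b ∉ Bad M ε δ) ∧
    (∀ b : Fin 3 → ℕ, (∀ i, 0 < b i) → b ∉ Bad 3 ε δ →
      b ∉ BadTriples (Real.exp (Real.log (mx b) ^ (1 - ε))) (Real.log (mx b) ^ δ)) := by
  obtain ⟨δ, hδ, N₀, h⟩ := RandomSmallSpread.result.1 M ε hε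
  refine ⟨δ, hδ, ?_, fun b hb hB hT => hB ⟨hb, triples_subset _ _ hT⟩⟩
  intro p _ σ hσ
  have hM1 : (1 : ℝ) ≤ M := by exact_mod_cast hM
  obtain ⟨E, hE, hE'⟩ := Pool.Agent.H223.PS.padic_tuples p (fun _ => Bad M ε δ)
    (s := (M : ℝ) - 1 / 4 + ε) (by linarith) (fun _ ε' hε' => count hM hε hε1 hδ h hε') hσ
  refine ⟨E, hE, fun α hα => ?_⟩
  obtain ⟨T₀, hT₀⟩ := hE' α hα 0
  exact ⟨T₀, fun T hT b hb => hT₀ T hT b hb⟩

end Pool.Agent.Results.MP_4ffbf9_nt.PadicBases
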