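import Pool.Agent.Results.MP_4ffbf9_nt.AllDegreesCount
import Pool.Agent.H107.MetricZero

/-!
# `A X + B Y = C Z` in products of bounded spread and large degree near a point

For all real `z` outside a set of Hausdorff dimension zero, all positive `A`, `B`, `C`, all `S`, `Q` and `σ > 0` there is `R`
such that only finitely many triples `(X, Y, Z)` with `A X + B Y = C Z` and `gcd (X, Y) ≤ Q` are products of spread at most
`S` and of degrees at least `R` (no upper bound) with all factors at most `T` and `|X / Z - z| ≤ T ^ (-σ)` for some `T`. The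
distance from `z` is measured by the size `T` of the factors only, not by the size of `X`, `Y`, `Z`. The same holds for
every map of the triples to a metric space.
-/

set_option autoImplicit false

namespace Pool.Agent.Results.MP_4ffbf9_nt.SolutionsNearPoints

open AllDegreesCount (IsProduct Solutions Ratios)
open Filter Topology

/-- families with two parameters: the exponents tend to zero with `R`, and the height `T` may depend on `R` -/
theorem dim_zero_two {P M : Type} [MetricSpace M] (φ : P → M) (S : ℕ → ℕ → Set P)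
    (hmono : ∀ R T T' : ℕ, T ≤ T' → S R T ⊆ S R T')
    (hC : ∀ ε : ℝ, 0 < ε → ∃ (R : ℕ) (C : ℝ), 0 ≤ C ∧ ∀ T : ℕ, 1 ≤ T →
      (S R T).Finite ∧ ((S R T).ncard : ℝ) ≤ C * (T : ℝ) ^ ε) :
    ∃ E : Set M, dimH E = 0 ∧ ∀ z ∉ E, ∀ σ : ℝ, 0 < σ → ∃ R : ℕ,
      {p | ∃ T : ℕ, 1 ≤ T ∧ p ∈ S R T ∧ dist (φ p) z ≤ (T : ℝ) ^ (-σ)}.Finite := by
  classical
  set B : ℕ → ℕ → Set M := fun j R =>
    {z : M | {p | ∃ T : ℕ, 1 ≤ T ∧ p ∈ S R T ∧ dist (φ p) z ≤ (T : ℝ) ^ (-(1 / ((j : ℝ) + 1)))}.Infinite} with hB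
  refine ⟨⋃ j, ⋂ R, B j R, ?_, fun z hz σ hσ => ?_⟩
  · rw [dimH_iUnion]
    refine le_antisymm (iSup_le fun j => ?_) bot_le
    have hj : (0 : ℝ) < 1 / ((j : ℝ) + 1) := by positivity
    have main : ∀ ε : ℝ, 0 < ε → dimH (⋂ R, B j R) ≤ ENNReal.ofReal (ε / (1 / ((j : ℝ) + 1))) := by
      intro ε hε
      obtain ⟨R, C, hC0, hR⟩ := hC ε hε
      set h : P → ℝ := fun p => if hp : ∃ T : ℕ, 1 ≤ T ∧ p ∈ S R T then ((Nat.find hp : ℕ) : ℝ) else 1 with hh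
      have hval : ∀ p, (hp : ∃ T : ℕ, 1 ≤ T ∧ p ∈ S R T) → h p = ((Nat.find hp : ℕ) : ℝ) := fun p hp => by
        rw [hh]
        exact dif_pos hp
      have h1 : ∀ p, 1 ≤ h p := by
        intro p
        by_cases hp : ∃ T : ℕ, 1 ≤ T ∧ p ∈ S R T
        · rw [hval p hp]
          exact_mod_cast (Nat.find_spec hp).1
        · rw [hh]
          simp only [dif_neg hp]
          exact le_rfl
      obtain ⟨E, g1, g2⟩ := Pool.Agent.H107.ME.dim_family φ h h1 hε.le hj (J := Unit)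
        (fun _ => {p | ∃ T : ℕ, 1 ≤ T ∧ p ∈ S R T}) (fun _ δ hδ => by
        refine ⟨C, fun X hX => ?_⟩
        have hX0 : 0 < X := by linarith
        have hfl : 1 ≤ ⌊X⌋₊ := Nat.le_floor (by exact_mod_cast hX)
        have hsub : {t | t ∈ {p | ∃ T : ℕ, 1 ≤ T ∧ p ∈ S R T} ∧ h t ≤ X} ⊆ S R ⌊X⌋₊ := by
          rintro p ⟨hp, hpX⟩
          rw [hval p hp] at hpX
          exact hmono R _ _ (Nat.le_floor hpX) (Nat.find_spec hp).2
        obtain ⟨k1, k2⟩ := hR ⌊X⌋₊ hfl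
        refine ⟨k1.subset hsub, ?_⟩
        refine le_trans (by exact_mod_cast Set.ncard_le_ncard hsub k1) (k2.trans ?_)
        apply mul_le_mul_of_nonneg_left _ hC0
        refine (Real.rpow_le_rpow (by positivity) (Nat.floor_le hX0.le) hε.le).trans ?_
        exact Real.rpow_le_rpow_of_exponent_le hX (by linarith))
      refine (dimH_mono (?_ : (⋂ R, B j R) ⊆ E)).trans g1
      intro z hz
      by_contra hzE
      have h3 : z ∈ B j R := Set.mem_iInter.1 hz R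
      refine h3 ((g2 z hzE ()).subset ?_)
      rintro p ⟨T, hT1, hTS, hTd⟩
      have hp : ∃ T : ℕ, 1 ≤ T ∧ p ∈ S R T := ⟨T, hT1, hTS⟩
      refine ⟨hp, hTd.trans ?_⟩
      rw [hval p hp]
      have h4 : Nat.find hp ≤ T := Nat.find_min' hp ⟨hT1, hTS⟩
      have h5 : (0 : ℝ) < ((Nat.find hp : ℕ) : ℝ) := by exact_mod_cast (Nat.find_spec hp).1
      have h6 : ((Nat.find hp : ℕ) : ℝ) ≤ (T : ℝ) := by exact_mod_cast h4
      exact Real.rpow_le_rpow_of_nonpos h5 h6 (by linarith)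
    have hlim : Tendsto (fun k : ℕ => ENNReal.ofReal ((1 / ((k : ℝ) + 1)) / (1 / ((j : ℝ) + 1)))) atTop
        (𝓝 (ENNReal.ofReal (0 / (1 / ((j : ℝ) + 1))))) :=
      ENNReal.tendsto_ofReal (tendsto_one_div_add_atTop_nhds_zero_nat.div_const _)
    rw [zero_div, ENNReal.ofReal_zero] at hlim
    exact ge_of_tendsto' hlim fun k => main _ (by positivity)
  · obtain ⟨j, hj⟩ := exists_nat_one_div_lt hσ
    rw [Set.mem_iUnion, not_exists] at hz
    have hzj := hz j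
    rw [Set.mem_iInter, not_forall] at hzj
    obtain ⟨R, hR⟩ := hzj
    refine ⟨R, (Set.not_infinite.1 hR).subset ?_⟩
    rintro p ⟨T, g0, g1, g2⟩
    have hT : (1 : ℝ) ≤ (T : ℝ) := by exact_mod_cast g0
    exact ⟨T, g0, g1, g2.trans (Real.rpow_le_rpow_of_exponent_le hT (by linarith))⟩

lemma product_mono {S T T' R X : ℕ} (h : T ≤ T') (hX : IsProduct S T R X) : IsProduct S T' R X := by
  obtain ⟨l, h1, h2, h3, h4⟩ := hX
  exact ⟨l, h1, h2, fun a ha => ⟨(h3 a ha).1, (h3 a ha).2.trans h⟩, h4⟩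

lemma solutions_mono {S Q T T' R A B C : ℕ} (h : T ≤ T') : Solutions S Q T R A B C ⊆ Solutions S Q T' R A B C := by
  rintro w ⟨h1, h2, h3, h4, h5⟩
  exact ⟨h1, h2, product_mono h h3, product_mono h h4, product_mono h h5⟩

/-- **Theorem.** `Solutions S Q T R A B C` is the set of the triples `(X, Y, Z)` with `A X + B Y = C Z` and
`gcd (X, Y) ≤ Q rad (gcd (X, Y))` which are products of spread at most `S`, of degrees at least `R`, with all factors at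
most `T`, and `Ratios` is the set of the ratios `A X / (C Z)`.
(1) For every map `φ` from the triples to a metric space `M` there is a set `E ⊆ M` of Hausdorff dimension zero such that for
all `z` outside `E`, all positive `A`, `B`, `C`, all `S`, `Q` and `σ > 0` there is `R` such that only finitely many triples
`w = (X, Y, Z)` with `gcd (X, Y) ≤ Q` are in `Solutions S Q T R A B C` with `dist (φ w, z) ≤ T ^ (-σ)` for some `T ≥ 1`.
(2) For every map `φ` from the rational numbers to a metric space `M` there is a set `E ⊆ M` of dimension zero such that for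
all `z` outside `E`, all positive `A`, `B`, `C`, all `S`, `Q` and `σ > 0` there is `R` such that only finitely many `t` are
in `Ratios S Q T R A B C` with `dist (φ t, z) ≤ T ^ (-σ)` for some `T ≥ 1`.
(3) In particular there is a set of reals `E` of dimension zero with: for all real `z` outside `E`, all positive `A`, `B`,
`C`, all `S`, `Q` and `σ > 0` there is `R` such that only finitely many triples `(X, Y, Z)` with `gcd (X, Y) ≤ Q` are in
`Solutions S Q T R A B C` with `|X / Z - z| ≤ T ^ (-σ)` for some `T ≥ 1`. -/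
theorem result :
    (∀ (M : Type) [MetricSpace M] (φ : ℕ × ℕ × ℕ → M), ∃ E : Set M, dimH E = 0 ∧ ∀ z : M, z ∉ E →
      ∀ A B C S Q : ℕ, 0 < A → 0 < B → 0 < C → ∀ σ : ℝ, 0 < σ → ∃ R : ℕ,
        {w : ℕ × ℕ × ℕ | ∃ T : ℕ, 1 ≤ T ∧ (w ∈ Solutions S Q T R A B C ∧ Nat.gcd w.1 w.2.1 ≤ Q) ∧
          dist (φ w) z ≤ (T : ℝ) ^ (-σ)}.Finite) ∧
    (∀ (M : Type) [MetricSpace M] (φ : ℚ → M), ∃ E : Set M, dimH E = 0 ∧ ∀ z : M, z ∉ E →
      ∀ A B C S Q : ℕ, 0 < A → 0 < B → 0 < C → ∀ σ : ℝ, 0 < σ → ∃ R : ℕ,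
        {t : ℚ | ∃ T : ℕ, 1 ≤ T ∧ t ∈ Ratios S Q T R A B C ∧ dist (φ t) z ≤ (T : ℝ) ^ (-σ)}.Finite) ∧
    (∃ E : Set ℝ, dimH E = 0 ∧ ∀ z : ℝ, z ∉ E →
      ∀ A B C S Q : ℕ, 0 < A → 0 < B → 0 < C → ∀ σ : ℝ, 0 < σ → ∃ R : ℕ,
        {w : ℕ × ℕ × ℕ | ∃ T : ℕ, 1 ≤ T ∧ (w ∈ Solutions S Q T R A B C ∧ Nat.gcd w.1 w.2.1 ≤ Q) ∧
          |(w.1 : ℝ) / w.2.2 - z| ≤ (T : ℝ) ^ (-σ)}.Finite) := by
  have h1 : ∀ (M : Type) [MetricSpace M] (φ : ℕ × ℕ × ℕ → M), ∃ E : Set M, dimH E = 0 ∧ ∀ z : M, z ∉ E →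
      ∀ A B C S Q : ℕ, 0 < A → 0 < B → 0 < C → ∀ σ : ℝ, 0 < σ → ∃ R : ℕ,
        {w : ℕ × ℕ × ℕ | ∃ T : ℕ, 1 ≤ T ∧ (w ∈ Solutions S Q T R A B C ∧ Nat.gcd w.1 w.2.1 ≤ Q) ∧
          dist (φ w) z ≤ (T : ℝ) ^ (-σ)}.Finite := by
    intro M _ φ
    have hall : ∀ q : ℕ × ℕ × ℕ × ℕ × ℕ, ∃ E : Set M, dimH E = 0 ∧ ∀ z ∉ E, 0 < q.1 → 0 < q.2.1 → 0 < q.2.2.1 →
        ∀ σ : ℝ, 0 < σ → ∃ R : ℕ, {w : ℕ × ℕ × ℕ | ∃ T : ℕ, 1 ≤ T ∧
          (w ∈ Solutions q.2.2.2.1 q.2.2.2.2 T R q.1 q.2.1 q.2.2.1 ∧ Nat.gcd w.1 w.2.1 ≤ q.2.2.2.2) ∧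
          dist (φ w) z ≤ (T : ℝ) ^ (-σ)}.Finite := by
      rintro ⟨A, B, C, S, Q⟩
      by_cases hpos : 0 < A ∧ 0 < B ∧ 0 < C
      · obtain ⟨E, g1, g2⟩ := dim_zero_two φ
          (fun R T => {w | w ∈ Solutions S Q T R A B C ∧ Nat.gcd w.1 w.2.1 ≤ Q})
          (fun R T T' h w hw => ⟨solutions_mono h hw.1, hw.2⟩) (fun ε hε => by
            obtain ⟨R, C₀, h0, h⟩ := AllDegreesCount.result S Q A B C hpos.1 hpos.2.1 hpos.2.2 ε hε
            exact ⟨R, C₀, h0.le, fun T hT => (h T hT).2⟩)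
        exact ⟨E, g1, fun z hz _ _ _ σ hσ => g2 z hz σ hσ⟩
      · exact ⟨∅, by simp, fun z _ hA hB hC => absurd ⟨hA, hB, hC⟩ hpos⟩
    choose G hG1 hG2 using hall
    refine ⟨⋃ q, G q, ?_, fun z hz A B C S Q hA hB hC σ hσ => ?_⟩
    · rw [dimH_iUnion]
      simp [hG1]
    · exact hG2 (A, B, C, S, Q) z (fun h => hz (Set.mem_iUnion.2 ⟨_, h⟩)) hA hB hC σ hσ
  refine ⟨h1, ?_, ?_⟩
  · intro M _ φ
    have hall : ∀ q : ℕ × ℕ × ℕ × ℕ × ℕ, ∃ E : Set M, dimH E = 0 ∧ ∀ z ∉ E, 0 < q.1 → 0 < q.2.1 → 0 < q.2.2.1 →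
        ∀ σ : ℝ, 0 < σ → ∃ R : ℕ, {t : ℚ | ∃ T : ℕ, 1 ≤ T ∧
          t ∈ Ratios q.2.2.2.1 q.2.2.2.2 T R q.1 q.2.1 q.2.2.1 ∧ dist (φ t) z ≤ (T : ℝ) ^ (-σ)}.Finite := by
      rintro ⟨A, B, C, S, Q⟩
      by_cases hpos : 0 < A ∧ 0 < B ∧ 0 < C
      · obtain ⟨E, g1, g2⟩ := dim_zero_two φ (fun R T => Ratios S Q T R A B C)
          (fun R T T' h t ht => by
            obtain ⟨w, hw, rfl⟩ := ht
            exact ⟨w, solutions_mono h hw, rfl⟩) (fun ε hε => by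
            obtain ⟨R, C₀, h0, h⟩ := AllDegreesCount.result S Q A B C hpos.1 hpos.2.1 hpos.2.2 ε hε
            exact ⟨R, C₀, h0.le, fun T hT => (h T hT).1⟩)
        exact ⟨E, g1, fun z hz _ _ _ σ hσ => g2 z hz σ hσ⟩
      · exact ⟨∅, by simp, fun z _ hA hB hC => absurd ⟨hA, hB, hC⟩ hpos⟩
    choose G hG1 hG2 using hall
    refine ⟨⋃ q, G q, ?_, fun z hz A B C S Q hA hB hC σ hσ => ?_⟩
    · rw [dimH_iUnion]
      simp [hG1]
    · exact hG2 (A, B, C, S, Q) z (fun h => hz (Set.mem_iUnion.2 ⟨_, h⟩)) hA hB hC σ hσ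
  · exact h1 ℝ (fun w => (w.1 : ℝ) / w.2.2)

end Pool.Agent.Results.MP_4ffbf9_nt.SolutionsNearPoints
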